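import Mathlib

/-!
# The standard nets of alternating forms
-/

set_option autoImplicit false

namespace Pool.Agent.KS6_30.VF

open Matrix

/-- The Pfaffian vector of the net `BB a b c`. -/
def pf (a b c : ℚ) (l : Fin 3 → ℚ) : Fin 5 → ℚ :=
  ![b * l 1 ^ 2 - a * l 0 ^ 2, c * l 2 ^ 2 - b * l 1 ^ 2, l 1 * l 2, -(l 0 * l 2), l 0 * l 1]

/-- The standard net: `x1 ∧ x2 + a x4 ∧ x3`, `(x0 + x1) ∧ x3 + b x4 ∧ x2`, `x0 ∧ x4 + c x3 ∧ x2`. -/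
def BB (a b c : ℚ) : Fin 3 → Matrix (Fin 5) (Fin 5) ℚ :=
  ![!![0, 0, 0, 0, 0; 0, 0, 1, 0, 0; 0, -1, 0, 0, 0; 0, 0, 0, 0, -a; 0, 0, 0, a, 0],
    !![0, 0, 0, 1, 0; 0, 0, 0, 1, 0; 0, 0, 0, 0, -b; -1, -1, 0, 0, 0; 0, 0, b, 0, 0],
    !![0, 0, 0, 0, 1; 0, 0, 0, 0, 0; 0, 0, 0, -c, 0; 0, 0, c, 0, 0; -1, 0, 0, 0, 0]]

theorem BB_pf (a b c : ℚ) (l : Fin 3 → ℚ) : (∑ i, l i • BB a b c i) *ᵥ pf a b c l = 0 := by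
  funext r
  rw [Fin.sum_univ_three]
  fin_cases r <;> simp [BB, pf, Matrix.mulVec, dotProduct, Fin.sum_univ_five] <;> ring

end Pool.Agent.KS6_30.VF
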