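import Pool.Agent.KS6_30.VF.Net
import Pool.Agent.KS6_30.VF.Nets

/-!
# Classification of the smooth nets over `ℚ`
-/

set_option autoImplicit false

namespace Pool.Agent.KS6_30.VF

open Matrix

/-- the algebraic closure -/
abbrev Kb : Type := AlgebraicClosure ℚ

/-- the net over the algebraic closure -/
noncomputable def ex (A : Fin 3 → Matrix (Fin 5) (Fin 5) ℚ) : Fin 3 → Matrix (Fin 5) (Fin 5) Kb :=
  fun i => (A i).map (algebraMap ℚ Kb)

theorem ex_alt {A : Fin 3 → Matrix (Fin 5) (Fin 5) ℚ} (hA : ∀ i, Alt (A i)) (i : Fin 3) :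
    Alt (ex A i) := by
  have h := hA i
  simp only [Alt] at h ⊢
  ext j k
  have h1 := congrFun (congrFun h j) k
  simp only [ex, Matrix.transpose_apply, Matrix.map_apply, Matrix.neg_apply] at h1 ⊢
  rw [h1, map_neg]

theorem Pq_ex (A : Fin 3 → Matrix (Fin 5) (Fin 5) ℚ) (i j : Fin 3) (k : Fin 5) :
    Pq (ex A i) (ex A j) k = algebraMap ℚ Kb (Pq (A i) (A j) k) := by
  fin_cases k <;> simp [Pq, ex]

theorem Phi_ex (A : Fin 3 → Matrix (Fin 5) (Fin 5) ℚ) (T : Matrix (Fin 3) (Fin 3) ℚ) (k : Fin 5) :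
    Phi (ex A) (T.map (algebraMap ℚ Kb)) k = algebraMap ℚ Kb (Phi A T k) := by
  simp only [Phi, Finset.sum_apply, Pi.smul_apply, smul_eq_mul, Matrix.map_apply, Pq_ex, map_sum,
    map_mul]

/-- smooth nets -/
def Smooth (A : Fin 3 → Matrix (Fin 5) (Fin 5) ℚ) : Prop :=
  ∀ l : Fin 3 → Kb, l ≠ 0 → 4 ≤ (lin (ex A) l).rank

/-- symmetric matrices -/
def sy {R : Type*} (v : Fin 6 → R) : Matrix (Fin 3) (Fin 3) R :=
  !![v 0, v 3, v 4; v 3, v 1, v 5; v 4, v 5, v 2]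

theorem sy_symm {R : Type*} (v : Fin 6 → R) : (sy v)ᵀ = sy v := by
  ext i j
  fin_cases i <;> fin_cases j <;> rfl

theorem exists_rel (A : Fin 3 → Matrix (Fin 5) (Fin 5) ℚ) : ∃ T : Matrix (Fin 3) (Fin 3) ℚ,
    T ≠ 0 ∧ Tᵀ = T ∧ Phi A T = 0 := by
  let F : (Fin 6 → ℚ) →ₗ[ℚ] (Fin 5 → ℚ) :=
    { toFun := fun v => Phi A (sy v)
      map_add' := fun v w => by
        rw [← Phi_add]
        congr 1
        ext i j
        fin_cases i <;> fin_cases j <;> rfl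
      map_smul' := fun t v => by
        rw [RingHom.id_apply, ← Phi_smul]
        congr 1
        ext i j
        fin_cases i <;> fin_cases j <;> rfl }
  have hk : LinearMap.ker F ≠ ⊥ := by
    apply LinearMap.ker_ne_bot_of_finrank_lt
    simp
  obtain ⟨v, hv, hv0⟩ := Submodule.exists_mem_ne_zero_of_ne_bot hk
  refine ⟨sy v, fun h => hv0 ?_, sy_symm v, hv⟩
  have e := fun i j => congrFun (congrFun h i) j
  funext i
  fin_cases i
  · exact e 0 0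
  · exact e 1 1
  · exact e 2 2
  · exact e 0 1
  · exact e 0 2
  · exact e 1 2

theorem map_ne {T : Matrix (Fin 3) (Fin 3) ℚ} (h : T ≠ 0) : T.map (algebraMap ℚ Kb) ≠ 0 := by
  intro h0
  apply h
  ext i j
  have := congrFun (congrFun h0 i) j
  simp only [Matrix.map_apply, Matrix.zero_apply] at this ⊢
  exact (map_eq_zero _).1 this

theorem rel_det {A : Fin 3 → Matrix (Fin 5) (Fin 5) ℚ} (hA : ∀ i, Alt (A i)) (hs : Smooth A)
    {T : Matrix (Fin 3) (Fin 3) ℚ} (h0 : T ≠ 0) (hT : Tᵀ = T) (hΦ : Phi A T = 0) : T.det ≠ 0 := by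
  intro hd
  apply map_ne h0
  refine nondeg (ex_alt hA) hs ?_ ?_ ?_
  · rw [← Matrix.transpose_map, hT]
  · funext k
    rw [Phi_ex, hΦ]
    simp
  · rw [← RingHom.mapMatrix_apply, ← RingHom.map_det, hd, map_zero]

/-- the change of the net -/
def ch (h : Matrix (Fin 3) (Fin 3) ℚ) (A : Fin 3 → Matrix (Fin 5) (Fin 5) ℚ) :
    Fin 3 → Matrix (Fin 5) (Fin 5) ℚ := fun i => ∑ j, h i j • A j

theorem ch_alt {h : Matrix (Fin 3) (Fin 3) ℚ} {A : Fin 3 → Matrix (Fin 5) (Fin 5) ℚ}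
    (hA : ∀ i, Alt (A i)) (i : Fin 3) : Alt (ch h A i) := lin_alt hA (h i)

theorem lin_ch (h : Matrix (Fin 3) (Fin 3) ℚ) (A : Fin 3 → Matrix (Fin 5) (Fin 5) ℚ) (l : Fin 3 → Kb) :
    lin (ex (ch h A)) l = lin (ex A) (l ᵥ* h.map (algebraMap ℚ Kb)) := by
  ext i j
  simp only [lin, ex, ch, Matrix.sum_apply, Matrix.smul_apply, Matrix.map_apply, smul_eq_mul,
    Fin.sum_univ_three, Matrix.vecMul, dotProduct, Matrix.add_apply, map_add, map_mul]
  ring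

theorem ch_smooth {h : Matrix (Fin 3) (Fin 3) ℚ} (hu : IsUnit h.det)
    {A : Fin 3 → Matrix (Fin 5) (Fin 5) ℚ} (hs : Smooth A) : Smooth (ch h A) := by
  intro l hl
  rw [lin_ch]
  apply hs
  intro h0
  apply hl
  have h1 : IsUnit (h.map (algebraMap ℚ Kb)).det := by
    rw [← RingHom.mapMatrix_apply, ← RingHom.map_det]
    exact hu.map _
  have h2 : l ᵥ* (h.map (algebraMap ℚ Kb) * (h.map (algebraMap ℚ Kb))⁻¹) = 0 := by
    rw [← Matrix.vecMul_vecMul, h0, Matrix.zero_vecMul]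
  rwa [Matrix.mul_nonsing_inv _ h1, Matrix.vecMul_one] at h2

theorem Pf_lin (A : Fin 3 → Matrix (Fin 5) (Fin 5) ℚ) (l : Fin 3 → ℚ) : Pf (lin A l) =
    l 0 ^ 2 • Pf (A 0) + l 1 ^ 2 • Pf (A 1) + l 2 ^ 2 • Pf (A 2) + (l 1 * l 2) • Pq (A 1) (A 2) +
      (l 0 * l 2) • Pq (A 0) (A 2) + (l 0 * l 1) • Pq (A 0) (A 1) := by
  funext i
  rw [lin, Fin.sum_univ_three]
  fin_cases i <;> simp [Pf, Pq] <;> ring

/-- the basis -/
def gm (a c : ℚ) (A : Fin 3 → Matrix (Fin 5) (Fin 5) ℚ) : Matrix (Fin 5) (Fin 5) ℚ :=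
  Matrix.of fun i k => ![-a⁻¹ * Pf (A 0) i, c⁻¹ * Pf (A 2) i, Pq (A 1) (A 2) i, -Pq (A 0) (A 2) i,
    Pq (A 0) (A 1) i] k

theorem gm_pf {a b c : ℚ} (ha : a ≠ 0) (hb : b ≠ 0) (hc : c ≠ 0)
    {A : Fin 3 → Matrix (Fin 5) (Fin 5) ℚ}
    (hr : a⁻¹ • Pf (A 0) + b⁻¹ • Pf (A 1) + c⁻¹ • Pf (A 2) = 0) (l : Fin 3 → ℚ) :
    gm a c A *ᵥ pf a b c l = Pf (lin A l) := by
  rw [Pf_lin]
  funext i
  have h := congrFun hr i
  simp only [Pi.add_apply, Pi.smul_apply, smul_eq_mul, Pi.zero_apply] at h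
  simp only [gm, pf, Matrix.mulVec, dotProduct, Fin.sum_univ_five, Matrix.of_apply, Matrix.cons_val,
    Pi.add_apply, Pi.smul_apply, smul_eq_mul]
  have e1 : a * a⁻¹ = 1 := mul_inv_cancel₀ ha
  have e2 : b * b⁻¹ = 1 := mul_inv_cancel₀ hb
  have e3 : c * c⁻¹ = 1 := mul_inv_cancel₀ hc
  linear_combination (-b * l 1 ^ 2) * h + (l 0 ^ 2 * Pf (A 0) i) * e1 +
    (l 1 ^ 2 * Pf (A 1) i) * e2 + (l 2 ^ 2 * Pf (A 2) i) * e3

theorem gm_inj {a b c : ℚ} (ha : a ≠ 0) (hb : b ≠ 0) (hc : c ≠ 0)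
    {A : Fin 3 → Matrix (Fin 5) (Fin 5) ℚ} (hA : ∀ i, Alt (A i)) (hs : Smooth A)
    (hr : a⁻¹ • Pf (A 0) + b⁻¹ • Pf (A 1) + c⁻¹ • Pf (A 2) = 0) {v : Fin 5 → ℚ}
    (hv : gm a c A *ᵥ v = 0) : v = 0 := by
  set T0 : Matrix (Fin 3) (Fin 3) ℚ := sy ![a⁻¹, b⁻¹, c⁻¹, 0, 0, 0] with hT0
  set T1 : Matrix (Fin 3) (Fin 3) ℚ := sy ![-a⁻¹ * v 0 , 0, c⁻¹ * v 1, v 4, -v 3, v 2] with hT1
  have hP0 : Phi A T0 = 0 := by
    funext i
    have h := congrFun hr i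
    simp only [Pi.add_apply, Pi.smul_apply, smul_eq_mul, Pi.zero_apply] at h
    simp only [Phi, hT0, sy, Fin.sum_univ_three, Matrix.of_apply, Matrix.cons_val, Pi.add_apply,
      Pi.smul_apply, smul_eq_mul, Pq_self, Pi.zero_apply]
    linear_combination 2 * h
  have hP1 : Phi A T1 = 0 := by
    funext i
    have h := congrFun hv i
    simp only [gm, Matrix.mulVec, dotProduct, Fin.sum_univ_five, Matrix.of_apply, Matrix.cons_val,
      Pi.zero_apply] at h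
    simp only [Phi, hT1, sy, Fin.sum_univ_three, Matrix.of_apply, Matrix.cons_val, Pi.add_apply,
      Pi.smul_apply, smul_eq_mul, Pq_self, Pi.zero_apply, Pq_comm (A 1) (A 0), Pq_comm (A 2) (A 0),
      Pq_comm (A 2) (A 1)]
    linear_combination 2 * h
  have hn : T0 ≠ 0 := by
    intro h0
    have := congrFun (congrFun h0 0) 0
    simp only [hT0, sy, Matrix.of_apply, Matrix.cons_val, Matrix.zero_apply] at this
    exact inv_ne_zero ha this
  obtain ⟨s, hs'⟩ := unique (ex_alt hA) hs (T := T0.map (algebraMap ℚ Kb))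
    (T' := T1.map (algebraMap ℚ Kb)) (by rw [← Matrix.transpose_map, sy_symm])
    (by
      funext k
      rw [Phi_ex, hP0]
      simp)
    (by rw [← Matrix.transpose_map, sy_symm])
    (by
      funext k
      rw [Phi_ex, hP1]
      simp) (map_ne hn)
  have e := fun i j => congrFun (congrFun hs' i) j
  have hs0 : s = 0 := by
    have h1 := e 1 1
    simp only [hT0, hT1, sy, Matrix.map_apply, Matrix.smul_apply, smul_eq_mul, Matrix.of_apply,
      Matrix.cons_val, map_zero] at h1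
    rcases mul_eq_zero.1 h1.symm with h | h
    · exact h
    · exact absurd ((map_eq_zero _).1 h) (inv_ne_zero hb)
  have hz : ∀ i j, T1 i j = 0 := by
    intro i j
    have h1 := e i j
    rw [hs0, zero_smul, Matrix.zero_apply, Matrix.map_apply] at h1
    exact (map_eq_zero _).1 h1
  have ia : a⁻¹ ≠ 0 := inv_ne_zero ha
  have ic : c⁻¹ ≠ 0 := inv_ne_zero hc
  have z00 := hz 0 0
  have z22 := hz 2 2
  have z01 := hz 0 1
  have z02 := hz 0 2
  have z12 := hz 1 2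
  simp only [hT1, sy, Matrix.of_apply, Matrix.cons_val] at z00 z22 z01 z02 z12
  funext i
  fin_cases i
  · simp only [neg_mul, neg_eq_zero, mul_eq_zero, ia, false_or] at z00
    exact z00
  · simp only [mul_eq_zero, ic, false_or] at z22
    exact z22
  · exact z12
  · exact neg_eq_zero.1 z02
  · exact z01

/-- the normal form of the relation -/
def S_LEG : Prop := ∀ T : Matrix (Fin 3) (Fin 3) ℚ, T.IsSymm → T.det ≠ 0 →
  ∃ (h : Matrix (Fin 3) (Fin 3) ℚ) (t : ℚ) (a b c : ℤ), IsUnit h.det ∧ t ≠ 0 ∧ a ≠ 0 ∧ b ≠ 0 ∧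
    c ≠ 0 ∧ IsCoprime a b ∧ IsCoprime b c ∧ IsCoprime c a ∧
    T = t • (hᵀ * Matrix.diagonal ![(a : ℚ)⁻¹, (b : ℚ)⁻¹, (c : ℚ)⁻¹] * h)

/-- the net with given Pfaffians -/
def S_NET : Prop := ∀ A : Fin 3 → Matrix (Fin 5) (Fin 5) ℚ, (∀ i, (A i)ᵀ = -(A i)) →
  ∀ {a b c : ℚ}, a ≠ 0 → b ≠ 0 → c ≠ 0 → (∀ l : Fin 3 → ℚ, (∑ i, l i • A i) *ᵥ pf a b c l = 0) →
  ∃ s : ℚ, ∀ i, A i = s • BB a b c i

theorem classify' (hleg : S_LEG) (hnet : S_NET) {A : Fin 3 → Matrix (Fin 5) (Fin 5) ℚ}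
    (hA : ∀ i, Alt (A i)) (hs : Smooth A) :
    ∃ (g : Matrix (Fin 5) (Fin 5) ℚ) (h : Matrix (Fin 3) (Fin 3) ℚ) (a b c : ℤ), IsUnit g.det ∧
      IsUnit h.det ∧ a ≠ 0 ∧ b ≠ 0 ∧ c ≠ 0 ∧ IsCoprime a b ∧ IsCoprime b c ∧ IsCoprime c a ∧
      ∀ i, BB a b c i = ∑ j, h i j • (gᵀ * A j * g) := by
  obtain ⟨T, hT0, hTs, hTΦ⟩ := exists_rel A
  have hTd := rel_det hA hs hT0 hTs hTΦ
  obtain ⟨h, t, a, b, c, hu, ht, ha, hb, hc, hab, hbc, hca, he⟩ := hleg T hTs hTd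
  have ha' : (a : ℚ) ≠ 0 := by exact_mod_cast ha
  have hb' : (b : ℚ) ≠ 0 := by exact_mod_cast hb
  have hc' : (c : ℚ) ≠ 0 := by exact_mod_cast hc
  set A' := ch h A with hA'
  have aA' : ∀ i, Alt (A' i) := fun i => ch_alt hA i
  have sA' : Smooth A' := ch_smooth hu hs
  have hr : (a : ℚ)⁻¹ • Pf (A' 0) + (b : ℚ)⁻¹ • Pf (A' 1) + (c : ℚ)⁻¹ • Pf (A' 2) = 0 := by
    have h1 : Phi A (hᵀ * Matrix.diagonal ![(a : ℚ)⁻¹, (b : ℚ)⁻¹, (c : ℚ)⁻¹] * h) = 0 := by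
      rw [he, Phi_smul] at hTΦ
      exact (smul_eq_zero.1 hTΦ).resolve_left ht
    rw [diag_sum, Phi_add, Phi_add, Phi_smul, Phi_smul, Phi_smul, ← Pq_lin, ← Pq_lin, ← Pq_lin,
      Pq_self, Pq_self, Pq_self] at h1
    have h2 : ∀ i, lin A (h i) = A' i := fun i => rfl
    rw [h2, h2, h2] at h1
    funext i
    have h3 := congrFun h1 i
    simp only [Pi.add_apply, Pi.smul_apply, smul_eq_mul, Pi.zero_apply, Matrix.cons_val] at h3 ⊢
    linear_combination (1 / 2 : ℚ) * h3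
  set g := gm (a : ℚ) (c : ℚ) A' with hg
  have gu : IsUnit g.det := by
    rw [isUnit_iff_ne_zero]
    intro h0
    obtain ⟨v, hv0, hv⟩ := Matrix.exists_mulVec_eq_zero_iff.2 h0
    exact hv0 (gm_inj ha' hb' hc' aA' sA' hr hv)
  obtain ⟨s, hs'⟩ := hnet (fun i => gᵀ * A' i * g) (fun i => by
      have := aA' i
      simp only [Alt] at this
      rw [Matrix.transpose_mul, Matrix.transpose_mul, Matrix.transpose_transpose, this,
        Matrix.neg_mul, Matrix.mul_neg, Matrix.mul_assoc]) ha' hb' hc' (fun l => by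
      have e1 : (∑ i, l i • (gᵀ * A' i * g)) = gᵀ * lin A' l * g := by
        simp only [lin, Fin.sum_univ_three, Matrix.mul_add, Matrix.add_mul, Matrix.mul_smul,
          Matrix.smul_mul]
      rw [e1, ← Matrix.mulVec_mulVec, ← Matrix.mulVec_mulVec, gm_pf ha' hb' hc' hr,
        mul_Pf (lin_alt aA' l), Matrix.mulVec_zero])
  have hs0 : s ≠ 0 := by
    rintro rfl
    have h1 : ∀ i, gᵀ * A' i * g = 0 := fun i => by rw [hs' i, zero_smul]
    have gu' : IsUnit gᵀ.det := by rwa [Matrix.det_transpose]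
    have h2 : ∀ i, A' i = 0 := by
      intro i
      have e1 : (gᵀ)⁻¹ * (gᵀ * A' i * g) * g⁻¹ = A' i := by
        rw [Matrix.mul_assoc gᵀ, Matrix.nonsing_inv_mul_cancel_left _ _ gu', Matrix.mul_assoc,
          Matrix.mul_nonsing_inv _ gu, Matrix.mul_one]
      rw [← e1, h1, Matrix.mul_zero, Matrix.zero_mul]
    have h3 := sA' 1 one_ne_zero
    have h4 : lin (ex A') 1 = 0 := by
      ext i j
      simp [lin, ex, h2]
    rw [h4, Matrix.rank_zero] at h3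
    omega
  refine ⟨g, s⁻¹ • h, a, b, c, gu, ?_, ha, hb, hc, hab, hbc, hca, fun i => ?_⟩
  · rw [Matrix.det_smul]
    exact ((isUnit_iff_ne_zero.2 (inv_ne_zero hs0)).pow _).mul hu
  · have h1 := hs' i
    have h2 : BB a b c i = s⁻¹ • (gᵀ * A' i * g) := by
      rw [h1, smul_smul, inv_mul_cancel₀ hs0, one_smul]
    rw [h2, hA']
    simp only [ch, Fin.sum_univ_three, Matrix.mul_add, Matrix.add_mul, Matrix.mul_smul,
      Matrix.smul_mul, Matrix.smul_apply, smul_add, smul_smul, smul_eq_mul]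

end Pool.Agent.KS6_30.VF
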