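import Mathlib

/-!
# Diagonalization of symmetric 3 x 3 matrices
-/

set_option autoImplicit false

namespace Pool.Agent.KS6_30.VF

open Matrix

theorem exists_diag {K : Type*} [Field K] [CharZero K] (T : Matrix (Fin 3) (Fin 3) K) (hT : Tᵀ = T) :
    ∃ (h : Matrix (Fin 3) (Fin 3) K) (d : Fin 3 → K), IsUnit h.det ∧ T = hᵀ * diagonal d * h := by
  have : Invertible (2 : K) := invertibleOfNonzero two_ne_zero
  set B : LinearMap.BilinForm K (Fin 3 → K) := Matrix.toBilin' T with hB
  have hBa : ∀ x y, B x y = x ⬝ᵥ T *ᵥ y := fun x y => Matrix.toBilin'_apply' T x y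
  have hs : LinearMap.IsSymm B := by
    refine ⟨fun x y => ?_⟩
    rw [RingHom.id_apply, hBa, hBa, Matrix.dotProduct_mulVec, ← Matrix.mulVec_transpose, hT,
      dotProduct_comm]
  obtain ⟨v0, hv0⟩ := LinearMap.BilinForm.exists_orthogonal_basis hs
  have hf : Module.finrank K (Fin 3 → K) = 3 := Module.finrank_fin_fun K
  set v : Module.Basis (Fin 3) K (Fin 3 → K) := v0.reindex (finCongr hf) with hv
  have hv1 : ∀ i j, i ≠ j → B (v i) (v j) = 0 := by
    intro i j hij
    simp only [hv, Module.Basis.reindex_apply]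
    exact hv0 (fun h => hij ((finCongr hf).symm.injective h))
  set P : Matrix (Fin 3) (Fin 3) K := Matrix.of fun i j => v j i with hP
  have hPu : IsUnit P.det := by
    have h1 : P = (Pi.basisFun K (Fin 3)).toMatrix v := by
      ext i j
      simp [hP, Module.Basis.toMatrix_apply]
    rw [h1]
    have := (Pi.basisFun K (Fin 3)).isUnit_det v
    rwa [Module.Basis.det_apply] at this
  have hD : Pᵀ * T * P = diagonal fun i => B (v i) (v i) := by
    ext i j
    have h1 : (Pᵀ * T * P) i j = B (v i) (v j) := by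
      rw [hBa, Matrix.mul_assoc, Matrix.mul_apply]
      simp only [dotProduct, Matrix.transpose_apply, hP, Matrix.of_apply, Matrix.mul_apply,
        Matrix.mulVec, Matrix.mul_apply]
    rw [h1]
    by_cases hij : i = j
    · rw [hij, diagonal_apply_eq]
    · rw [diagonal_apply_ne _ hij, hv1 i j hij]
  refine ⟨P⁻¹, fun i => B (v i) (v i), ?_, ?_⟩
  · exact Matrix.isUnit_nonsing_inv_det P hPu
  · rw [← hD]
    have h1 : P * P⁻¹ = 1 := Matrix.mul_nonsing_inv P hPu
    have h2 : (P⁻¹)ᵀ * Pᵀ = 1 := by rw [← Matrix.transpose_mul, h1, Matrix.transpose_one]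
    calc T = ((P⁻¹)ᵀ * Pᵀ) * T * (P * P⁻¹) := by rw [h1, h2, Matrix.one_mul, Matrix.mul_one]
      _ = _ := by simp only [Matrix.mul_assoc]

end Pool.Agent.KS6_30.VF
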