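import Pool.Agent.KS6_98.V5F.Transfer
import Pool.Agent.KS6_30.VB.L8
import Pool.Agent.KS6_30.VF.Nets

/-!
# Manin's conjecture for the standard nets
-/

set_option autoImplicit false
set_option linter.unusedSectionVars false

namespace Pool.Agent.KS6_30.VF

open Pool.Agent.KS6_98.V5F Filter Topology
open Pool.Agent.KS6_30.VA.Tern

section

variable [VA.Tern]

theorem isoA_BB {L : Type} [Field L] (x y : Fin 5 → L) :
    IsoA (BB fa fb fc) x y ↔ VA.Iso x y := by
  have e0 : (∑ j, ∑ k, ((BB fa fb fc 0 j k : ℚ) : L) * x j * y k) = VA.b0 x y := by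
    simp only [BB, Fin.sum_univ_five, VA.b0]
    simp
    ring
  have e1 : (∑ j, ∑ k, ((BB fa fb fc 1 j k : ℚ) : L) * x j * y k) = VA.b1 x y := by
    simp only [BB, Fin.sum_univ_five, VA.b1]
    simp
    ring
  have e2 : (∑ j, ∑ k, ((BB fa fb fc 2 j k : ℚ) : L) * x j * y k) = VA.b2 x y := by
    simp only [BB, Fin.sum_univ_five, VA.b2]
    simp
    ring
  rw [VA.Iso, ← e0, ← e1, ← e2]
  constructor
  · intro h
    exact ⟨h 0, h 1, h 2⟩
  · rintro ⟨h0, h1, h2⟩ i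
    fin_cases i
    · exact h0
    · exact h1
    · exact h2

theorem cone_BB (L : Type) [NormedField L] : Cone (BB fa fb fc) L = VA.Cone L := by
  ext q
  constructor
  · rintro ⟨h0, x, y, hi, he⟩
    exact ⟨h0, x, y, (isoA_BB x y).1 hi, he⟩
  · rintro ⟨h0, x, y, hi, he⟩
    exact ⟨h0, x, y, (isoA_BB x y).2 hi, he⟩

theorem fac_BB {L : Type} [NormedField L] {ψ : (Fin 5 × Fin 5 → L) → ℝ}
    (h : IsFactor (BB fa fb fc) L ψ) : VA.Fac L ψ :=
  ⟨fun q hq => h.positive q (by rwa [cone_BB]), by rw [← cone_BB]; exact h.continuous,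
    fun a ha q hq => h.invariant a ha q (by rwa [cone_BB])⟩

theorem man_tern : MAN (BB fa fb fc) := by
  intro S ψ φ hψ hφ
  obtain ⟨c, hc, h⟩ := VB.main_all S ψ φ (fac_BB hψ) (fun p hp => fac_BB (hφ p hp))
  refine ⟨c, hc, ?_⟩
  have e : ∀ B : ℝ, bounded (BB fa fb fc) S ψ φ B = VB.bddA S ψ φ B := by
    intro B
    ext p
    constructor
    · rintro ⟨⟨x, y, hi, he⟩, h2⟩
      exact ⟨⟨x, y, (isoA_BB x y).1 hi, he⟩, h2⟩
    · rintro ⟨⟨x, y, hi, he⟩, h2⟩
      exact ⟨⟨x, y, (isoA_BB x y).2 hi, he⟩, h2⟩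
  simp only [e]
  exact h

end

/-- Manin's conjecture for the standard nets. -/
theorem man_BB {a b c : ℤ} (ha : a ≠ 0) (hb : b ≠ 0) (hc : c ≠ 0) (hab : IsCoprime a b)
    (hbc : IsCoprime b c) (hca : IsCoprime c a) : MAN (BB a b c) :=
  @man_tern { fa := a, fb := b, fc := c, ha := ha, hb := hb, hc := hc, ab := hab, bc := hbc, ca := hca }

end Pool.Agent.KS6_30.VF
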