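import Pool.Agent.KS6_30.VF.Cls

/-!
# The net with given Pfaffians
-/

set_option autoImplicit false

namespace Pool.Agent.KS6_30.VF

open Matrix

theorem net_unique : S_NET := by
  intro A hA a b c ha hb hc h
  have d : ∀ i j, A i j j = 0 := fun i j => Alt.diag (hA i) j
  have n : ∀ i j k, A i k j = -A i j k := fun i j k => Alt.anti (hA i) j k
  have ev : ∀ (l0 l1 l2 : ℚ) (r : Fin 5),
      (l0 * A 0 r 0 + l1 * A 1 r 0 + l2 * A 2 r 0) * (b * l1 ^ 2 - a * l0 ^ 2) +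
      (l0 * A 0 r 1 + l1 * A 1 r 1 + l2 * A 2 r 1) * (c * l2 ^ 2 - b * l1 ^ 2) +
      (l0 * A 0 r 2 + l1 * A 1 r 2 + l2 * A 2 r 2) * (l1 * l2) -
      (l0 * A 0 r 3 + l1 * A 1 r 3 + l2 * A 2 r 3) * (l0 * l2) +
      (l0 * A 0 r 4 + l1 * A 1 r 4 + l2 * A 2 r 4) * (l0 * l1) = 0 := by
    intro l0 l1 l2 r
    have h1 := congrFun (h ![l0, l1, l2]) r
    rw [Fin.sum_univ_three] at h1
    simp only [Matrix.mulVec, dotProduct, Fin.sum_univ_five, pf, Matrix.cons_val, Matrix.add_apply,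
      Matrix.smul_apply, smul_eq_mul, Pi.zero_apply] at h1
    linear_combination h1
  have r1 : ∀ r, A 0 r 0 = 0 := by
    intro r
    have h1 := ev 1 0 0 r
    have h2 : a * A 0 r 0 = 0 := by linear_combination -h1
    exact (mul_eq_zero.1 h2).resolve_left ha
  have r2 : ∀ r, A 1 r 0 = A 1 r 1 := by
    intro r
    have h1 := ev 0 1 0 r
    have h2 : b * (A 1 r 0 - A 1 r 1) = 0 := by linear_combination h1
    exact sub_eq_zero.1 ((mul_eq_zero.1 h2).resolve_left hb)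
  have r3 : ∀ r, A 2 r 1 = 0 := by
    intro r
    have h1 := ev 0 0 1 r
    have h2 : c * A 2 r 1 = 0 := by linear_combination h1
    exact (mul_eq_zero.1 h2).resolve_left hc
  have r4 : ∀ r, A 1 r 4 = b * A 0 r 1 := by
    intro r
    linear_combination (1 / 2) * ev 1 1 0 r + (1 / 2) * ev 1 (-1) 0 r - (b - a) * r1 r
  have r5 : ∀ r, A 0 r 4 = a * A 1 r 0 := by
    intro r
    linear_combination (1 / 2) * ev 1 1 0 r - (1 / 2) * ev 1 (-1) 0 r - b * r2 r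
  have r6 : ∀ r, A 2 r 3 = c * A 0 r 1 := by
    intro r
    linear_combination (-1 / 2) * ev 1 0 1 r - (1 / 2) * ev 1 0 (-1) r - a * r1 r
  have r7 : ∀ r, A 0 r 3 = -a * A 2 r 0 := by
    intro r
    linear_combination (-1 / 2) * ev 1 0 1 r + (1 / 2) * ev 1 0 (-1) r + c * r3 r
  have r8 : ∀ r, A 2 r 2 = -c * A 1 r 1 := by
    intro r
    linear_combination (1 / 2) * ev 0 1 1 r + (1 / 2) * ev 0 1 (-1) r - b * r2 r
  have r9 : ∀ r, A 1 r 2 = -b * A 2 r 0 := by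
    intro r
    linear_combination (1 / 2) * ev 0 1 1 r - (1 / 2) * ev 0 1 (-1) r - (c - b) * r3 r
  have r10 : ∀ r, A 0 r 2 - A 1 r 3 + A 2 r 4 = 0 := by
    intro r
    linear_combination ev 1 1 1 r - (b - a) * r1 r - b * r2 r - (c - b) * r3 r - r4 r - r5 r + r6 r +
      r7 r - r8 r - r9 r
  -- the first form
  have a01 : A 0 0 1 = 0 := by rw [n 0 1 0, r1, neg_zero]
  have a02 : A 0 0 2 = 0 := by rw [n 0 2 0, r1, neg_zero]
  have a03 : A 0 0 3 = 0 := by rw [n 0 3 0, r1, neg_zero]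
  have a04 : A 0 0 4 = 0 := by rw [n 0 4 0, r1, neg_zero]
  have b01 : A 1 0 1 = 0 := by rw [← r2, d]
  have c01 : A 2 0 1 = 0 := r3 0
  have c10 : A 2 1 0 = 0 := by rw [n 2 0 1, c01, neg_zero]
  have a13 : A 0 1 3 = 0 := by rw [r7, c10, mul_zero]
  have a14 : A 0 1 4 = 0 := by rw [r5, n 1 0 1, b01, neg_zero, mul_zero]
  have b21 : A 1 2 1 = 0 := by
    have h1 := r8 2
    rw [d] at h1
    have h2 : c * A 1 2 1 = 0 := by linear_combination h1
    exact (mul_eq_zero.1 h2).resolve_left hc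
  have b20 : A 1 2 0 = 0 := by rw [r2, b21]
  have c20 : A 2 2 0 = 0 := by
    have h1 := r9 2
    rw [d] at h1
    have h2 : b * A 2 2 0 = 0 := by linear_combination h1
    exact (mul_eq_zero.1 h2).resolve_left hb
  have c30 : A 2 3 0 = 0 := by
    have h1 := r7 3
    rw [d] at h1
    have h2 : a * A 2 3 0 = 0 := by linear_combination h1
    exact (mul_eq_zero.1 h2).resolve_left ha
  have b40 : A 1 4 0 = 0 := by
    have h1 := r5 4
    rw [d] at h1
    have h2 : a * A 1 4 0 = 0 := by linear_combination -h1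
    exact (mul_eq_zero.1 h2).resolve_left ha
  have b41 : A 1 4 1 = 0 := by rw [← r2, b40]
  have a23 : A 0 2 3 = 0 := by rw [r7, c20, mul_zero]
  have a24 : A 0 2 4 = 0 := by rw [r5, b20, mul_zero]
  -- the entries `s`
  have c14 : A 2 1 4 = 0 := by rw [n 2 4 1, r3, neg_zero]
  have b13 : A 1 1 3 = A 0 1 2 := by
    have h1 := r10 1
    rw [c14] at h1
    linear_combination -h1
  have b31 : A 1 3 1 = -A 0 1 2 := by rw [n 1 1 3, b13]
  have b30 : A 1 3 0 = -A 0 1 2 := by rw [r2, b31]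
  have b03 : A 1 0 3 = A 0 1 2 := by rw [n 1 3 0, b30, neg_neg]
  have a34 : A 0 3 4 = -a * A 0 1 2 := by
    rw [r5, b30]
    ring
  have c04 : A 2 0 4 = A 0 1 2 := by
    have h1 := r10 0
    rw [a02, b03] at h1
    linear_combination h1
  have a21 : A 0 2 1 = -A 0 1 2 := n 0 1 2
  have b24 : A 1 2 4 = -b * A 0 1 2 := by
    rw [r4, a21]
    ring
  have c23 : A 2 2 3 = -c * A 0 1 2 := by
    rw [r6, a21]
    ring
  have a31 : A 0 3 1 = 0 := by rw [n 0 1 3, a13, neg_zero]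
  have b34 : A 1 3 4 = 0 := by rw [r4, a31, mul_zero]
  have b14 : A 1 1 4 = 0 := by rw [r4, d, mul_zero]
  have b04 : A 1 0 4 = 0 := by rw [r4, a01, mul_zero]
  have b02 : A 1 0 2 = 0 := by rw [n 1 2 0, b20, neg_zero]
  have b12 : A 1 1 2 = 0 := by rw [n 1 2 1, b21, neg_zero]
  have c02 : A 2 0 2 = 0 := by rw [n 2 2 0, c20, neg_zero]
  have c03 : A 2 0 3 = 0 := by rw [n 2 3 0, c30, neg_zero]
  have b23 : A 1 2 3 = 0 := by
    rw [n 1 3 2, r9, c30]
    ring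
  have c12 : A 2 1 2 = 0 := by rw [n 2 2 1, r3, neg_zero]
  have c13 : A 2 1 3 = 0 := by rw [n 2 3 1, r3, neg_zero]
  have c24 : A 2 2 4 = 0 := by
    rw [n 2 4 2, r8, b41]
    ring
  have a41 : A 0 4 1 = 0 := by rw [n 0 1 4, a14, neg_zero]
  have c34 : A 2 3 4 = 0 := by
    rw [n 2 4 3, r6, a41]
    ring
  refine ⟨A 0 1 2, fun i => ?_⟩
  ext j k
  fin_cases i
  · fin_cases j <;> fin_cases k <;> simp [BB, d, n 0 0 1, n 0 0 2, n 0 0 3, n 0 0 4, n 0 1 2, n 0 1 3,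
      n 0 1 4, n 0 2 3, n 0 2 4, n 0 3 4, a01, a02, a03, a04, a13, a14, a23, a24, a34, mul_comm]
  · fin_cases j <;> fin_cases k <;> simp [BB, d, n 1 0 1, n 1 0 2, n 1 0 3, n 1 0 4, n 1 1 2, n 1 1 3,
      n 1 1 4, n 1 2 3, n 1 2 4, n 1 3 4, b01, b02, b03, b04, b12, b13, b14, b23, b24, b34, mul_comm]
  · fin_cases j <;> fin_cases k <;> simp [BB, d, n 2 0 1, n 2 0 2, n 2 0 3, n 2 0 4, n 2 1 2, n 2 1 3,
      n 2 1 4, n 2 2 3, n 2 2 4, n 2 3 4, c01, c02, c03, c04, c12, c13, c14, c23, c24, c34, mul_comm]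

end Pool.Agent.KS6_30.VF
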