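import Pool.Agent.KS6_30.VF.Jac
import Pool.Agent.KS6_30.VF.Man
import Pool.Agent.KS6_30.VF.Uniq
import Pool.Agent.KS6_53.V5F.Leg

/-!
# Manin's conjecture for all smooth sections
-/

set_option autoImplicit false

namespace Pool.Agent.KS6_30.VF

open Pool.Agent.KS6_98.V5F Matrix

theorem man_all {A : Fin 3 → Matrix (Fin 5) (Fin 5) ℚ} (hA : ∀ i, (A i)ᵀ = -(A i)) (h : Jac A) :
    MAN A := by
  obtain ⟨g, h, a, b, c, hg, hh, ha, hb, hc, hab, hbc, hca, he⟩ :=
    classify' (fun T hT hd => Pool.Agent.KS6_53.V5F.legendre T hT hd) net_unique hA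
      (smooth_of_jac hA h)
  exact transfer hg hh he (man_BB ha hb hc hab hbc hca)

end Pool.Agent.KS6_30.VF
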