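import Pool.Agent.KS6_30.VF.Cls
import Pool.Agent.KS6_98.V5F.Defs

/-!
# The Jacobian criterion
-/

set_option autoImplicit false

namespace Pool.Agent.KS6_30.VF

open Matrix

section

variable {K : Type*} [Field K] [CharZero K]

/-- the kernel vectors are parallel to the Pfaffian vector -/
theorem ker_par {M : Matrix (Fin 5) (Fin 5) K} (h : Alt M) {x : Fin 5 → K} (hx : M *ᵥ x = 0)
    (i j : Fin 5) : Pf M i * x j = Pf M j * x i := by
  have d := h.diag
  have a := h.anti
  have h0 := congrFun hx 0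
  have h1 := congrFun hx 1
  have h2 := congrFun hx 2
  have h3 := congrFun hx 3
  have h4 := congrFun hx 4
  simp only [Matrix.mulVec, dotProduct, Fin.sum_univ_five, Pi.zero_apply, d, a 0 1, a 0 2, a 0 3, a 0 4,
    a 1 2, a 1 3, a 1 4, a 2 3, a 2 4, a 3 4] at h0 h1 h2 h3 h4
  have e01 : Pf M 0 * x 1 = Pf M 1 * x 0 := by
    simp only [Pf, Matrix.cons_val]
    linear_combination (-M 3 4) * h2 + (M 2 4) * h3 - (M 2 3) * h4
  have e02 : Pf M 0 * x 2 = Pf M 2 * x 0 := by
    simp only [Pf, Matrix.cons_val]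
    linear_combination (M 3 4) * h1 - (M 1 4) * h3 + (M 1 3) * h4
  have e03 : Pf M 0 * x 3 = Pf M 3 * x 0 := by
    simp only [Pf, Matrix.cons_val]
    linear_combination (-M 2 4) * h1 + (M 1 4) * h2 - (M 1 2) * h4
  have e04 : Pf M 0 * x 4 = Pf M 4 * x 0 := by
    simp only [Pf, Matrix.cons_val]
    linear_combination (M 2 3) * h1 - (M 1 3) * h2 + (M 1 2) * h3
  have e12 : Pf M 1 * x 2 = Pf M 2 * x 1 := by
    simp only [Pf, Matrix.cons_val]
    linear_combination (-M 3 4) * h0 + (M 0 4) * h3 - (M 0 3) * h4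
  have e13 : Pf M 1 * x 3 = Pf M 3 * x 1 := by
    simp only [Pf, Matrix.cons_val]
    linear_combination (M 2 4) * h0 - (M 0 4) * h2 + (M 0 2) * h4
  have e14 : Pf M 1 * x 4 = Pf M 4 * x 1 := by
    simp only [Pf, Matrix.cons_val]
    linear_combination (-M 2 3) * h0 + (M 0 3) * h2 - (M 0 2) * h3
  have e23 : Pf M 2 * x 3 = Pf M 3 * x 2 := by
    simp only [Pf, Matrix.cons_val]
    linear_combination (-M 1 4) * h0 + (M 0 4) * h1 - (M 0 1) * h4
  have e24 : Pf M 2 * x 4 = Pf M 4 * x 2 := by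
    simp only [Pf, Matrix.cons_val]
    linear_combination (M 1 3) * h0 - (M 0 3) * h1 + (M 0 1) * h3
  have e34 : Pf M 3 * x 4 = Pf M 4 * x 3 := by
    simp only [Pf, Matrix.cons_val]
    linear_combination (-M 1 2) * h0 + (M 0 2) * h1 - (M 0 1) * h2
  fin_cases i <;> fin_cases j <;>
    first | rfl | exact e01 | exact e02 | exact e03 | exact e04 | exact e12 | exact e13 | exact e14 |
      exact e23 | exact e24 | exact e34 | exact e01.symm | exact e02.symm | exact e03.symm |
      exact e04.symm | exact e12.symm | exact e13.symm | exact e14.symm | exact e23.symm |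
      exact e24.symm | exact e34.symm

theorem exists_three {M : Matrix (Fin 5) (Fin 5) K} (h : Alt M) (hr : M.rank < 4) :
    ∃ e : Fin 3 → (Fin 5 → K), LinearIndependent K e ∧ ∀ i, M *ᵥ e i = 0 := by
  have h3 := LinearMap.finrank_range_add_finrank_ker M.mulVecLin
  rw [Module.finrank_fin_fun] at h3
  have h4 : Module.finrank K (LinearMap.range M.mulVecLin) = M.rank := rfl
  have hP : Pf M = 0 := by
    by_contra hP
    obtain ⟨i, hi⟩ := Function.ne_iff.1 hP
    rw [Pi.zero_apply] at hi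
    have h5 : Module.finrank K (LinearMap.ker M.mulVecLin) ≤ 1 := by
      apply finrank_le_one_iff.2
      refine ⟨⟨Pf M, by simpa using mul_Pf h⟩, fun w => ⟨w.1 i / Pf M i, ?_⟩⟩
      apply Subtype.ext
      funext j
      have hw : M *ᵥ w.1 = 0 := by
        have := LinearMap.mem_ker.1 w.2
        rwa [Matrix.mulVecLin_apply] at this
      have := ker_par h hw i j
      simp only [Submodule.coe_smul, Pi.smul_apply, smul_eq_mul]
      field_simp
      linear_combination -this
    omega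
  have h5 := rank_le_two h hP
  have h6 : 3 ≤ Module.finrank K (LinearMap.ker M.mulVecLin) := by omega
  obtain ⟨f, hf⟩ := exists_linearIndependent_of_le_finrank h6
  refine ⟨fun i => (f i : Fin 5 → K), ?_, fun i => by
    have := LinearMap.mem_ker.1 (f i).2
    rwa [Matrix.mulVecLin_apply] at this⟩
  exact hf.map' (LinearMap.ker M.mulVecLin).subtype (Submodule.ker_subtype _)

/-- the value of a form -/
def fv (M : Matrix (Fin 5) (Fin 5) K) (x y : Fin 5 → K) : K := ∑ j, ∑ k, M j k * x j * y k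

omit [CharZero K] in
theorem fv_eq (M : Matrix (Fin 5) (Fin 5) K) (x y : Fin 5 → K) : fv M x y = x ⬝ᵥ M *ᵥ y := by
  simp only [fv, dotProduct, Matrix.mulVec, Finset.mul_sum]
  exact Finset.sum_congr rfl fun j _ => Finset.sum_congr rfl fun k _ => by ring

omit [CharZero K] in
theorem fv_swap {M : Matrix (Fin 5) (Fin 5) K} (h : Alt M) (x y : Fin 5 → K) :
    fv M x y = -fv M y x := by
  rw [fv, fv, Finset.sum_comm, ← Finset.sum_neg_distrib]
  refine Finset.sum_congr rfl fun j _ => ?_
  rw [← Finset.sum_neg_distrib]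
  refine Finset.sum_congr rfl fun k _ => ?_
  rw [h.anti j k]
  ring

theorem fv_self {M : Matrix (Fin 5) (Fin 5) K} (h : Alt M) (x : Fin 5 → K) : fv M x x = 0 := by
  have h1 := fv_swap h x x
  have h2 : (2 : K) * fv M x x = 0 := by linear_combination h1
  exact (mul_eq_zero.1 h2).resolve_left two_ne_zero

omit [CharZero K] in
theorem fv_comb (M : Matrix (Fin 5) (Fin 5) K) (e : Fin 3 → (Fin 5 → K)) (p q : Fin 3 → K) :
    fv M (∑ a, p a • e a) (∑ b, q b • e b) = ∑ a, ∑ b, p a * q b * fv M (e a) (e b) := by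
  simp only [fv_eq, Matrix.mulVec_sum, Matrix.mulVec_smul, sum_dotProduct, smul_dotProduct,
    dotProduct_sum, dotProduct_smul, smul_eq_mul, Finset.mul_sum]
  rw [Finset.sum_comm]
  exact Finset.sum_congr rfl fun a _ => Finset.sum_congr rfl fun b _ => by ring

omit [CharZero K] in
theorem fv_lin (A : Fin 3 → Matrix (Fin 5) (Fin 5) K) (l : Fin 3 → K) (x y : Fin 5 → K) :
    fv (lin A l) x y = ∑ i, l i * fv (A i) x y := by
  simp only [fv_eq, lin, Matrix.sum_mulVec, Matrix.smul_mulVec, dotProduct_sum, dotProduct_smul,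
    smul_eq_mul]

theorem exists_iso {A : Fin 3 → Matrix (Fin 5) (Fin 5) K} (hA : ∀ i, Alt (A i)) {l : Fin 3 → K}
    (hl : l ≠ 0) (hr : (lin A l).rank < 4) : ∃ x y : Fin 5 → K, LinearIndependent K ![x, y] ∧
      (∀ i, fv (A i) x y = 0) ∧ lin A l *ᵥ x = 0 ∧ lin A l *ᵥ y = 0 := by
  obtain ⟨e, he, hk⟩ := exists_three (lin_alt hA l) hr
  obtain ⟨k, hlk⟩ := Function.ne_iff.1 hl
  rw [Pi.zero_apply] at hlk
  -- the normal vector
  let w : Fin 3 → Fin 3 → K := fun i => ![fv (A i) (e 1) (e 2), -fv (A i) (e 0) (e 2), fv (A i) (e 0) (e 1)]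
  obtain ⟨n, hn0, hn⟩ : ∃ n : Fin 3 → K, n ≠ 0 ∧ ∀ i, i ≠ k → w i ⬝ᵥ n = 0 := by
    let F : Matrix (Fin 3) (Fin 3) K := Matrix.of fun i => if i = k then 0 else w i
    have hd : F.det = 0 := Matrix.det_eq_zero_of_row_eq_zero k fun j => by simp [F]
    obtain ⟨n, hn0, hn⟩ := Matrix.exists_mulVec_eq_zero_iff.2 hd
    refine ⟨n, hn0, fun i hi => ?_⟩
    have := congrFun hn i
    simpa [F, Matrix.mulVec, hi] using this
  -- the plane
  obtain ⟨p, q, c, hc, hpq⟩ : ∃ (p q : Fin 3 → K) (c : K), c ≠ 0 ∧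
      (p 1 * q 2 - p 2 * q 1 = c * n 0 ∧ p 2 * q 0 - p 0 * q 2 = c * n 1 ∧
        p 0 * q 1 - p 1 * q 0 = c * n 2) := by
    by_cases h2 : n 2 = 0
    · by_cases h1 : n 1 = 0
      · have h0 : n 0 ≠ 0 := by
          intro h0
          apply hn0
          funext i
          fin_cases i
          · exact h0
          · exact h1
          · exact h2
        exact ⟨![0, 1, 0], ![0, 0, n 0], 1, one_ne_zero, by simp, by simp [h1], by simp [h2]⟩
      · refine ⟨![0, n 2, -n 1], ![n 1, -n 0, 0], -n 1, neg_ne_zero.2 h1, ?_, ?_, ?_⟩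
        · simp
        · simp
        · simp [h2]
    · refine ⟨![n 2, 0, -n 0], ![0, n 2, -n 1], n 2, h2, ?_, ?_, ?_⟩
      · simp
        ring
      · simp
      · simp
  refine ⟨∑ a, p a • e a, ∑ b, q b • e b, ?_, ?_, ?_, ?_⟩
  · rw [LinearIndependent.pair_iff]
    intro s t hst
    rw [Fintype.linearIndependent_iff] at he
    have h1 := he (fun a => s * p a + t * q a) (by
      rw [← hst]
      simp only [Finset.smul_sum, ← Finset.sum_add_distrib, smul_smul, add_smul])
    have e0 : s * p 0 + t * q 0 = 0 := h1 0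
    have e1 : s * p 1 + t * q 1 = 0 := h1 1
    have e2 : s * p 2 + t * q 2 = 0 := h1 2
    obtain ⟨h3, h4, h5⟩ := hpq
    have f0 : ∀ z : K, z = s ∨ z = t → z * (c * n 0) = 0 := by
      rintro z (rfl | rfl)
      · rw [← h3]
        linear_combination q 2 * e1 - q 1 * e2
      · rw [← h3]
        linear_combination p 1 * e2 - p 2 * e1
    have f1 : ∀ z : K, z = s ∨ z = t → z * (c * n 1) = 0 := by
      rintro z (rfl | rfl)
      · rw [← h4]
        linear_combination q 0 * e2 - q 2 * e0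
      · rw [← h4]
        linear_combination p 2 * e0 - p 0 * e2
    have f2 : ∀ z : K, z = s ∨ z = t → z * (c * n 2) = 0 := by
      rintro z (rfl | rfl)
      · rw [← h5]
        linear_combination q 1 * e0 - q 0 * e1
      · rw [← h5]
        linear_combination p 0 * e1 - p 1 * e0
    have key : ∀ z : K, z = s ∨ z = t → z = 0 := by
      intro z hz
      by_contra hz0
      apply hn0
      funext i
      fin_cases i
      · exact (mul_eq_zero.1 ((mul_eq_zero.1 (f0 z hz)).resolve_left hz0)).resolve_left hc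
      · exact (mul_eq_zero.1 ((mul_eq_zero.1 (f1 z hz)).resolve_left hz0)).resolve_left hc
      · exact (mul_eq_zero.1 ((mul_eq_zero.1 (f2 z hz)).resolve_left hz0)).resolve_left hc
    exact ⟨key s (Or.inl rfl), key t (Or.inr rfl)⟩
  · have h1 : ∀ i, i ≠ k → fv (A i) (∑ a, p a • e a) (∑ b, q b • e b) = 0 := by
      intro i hi
      rw [fv_comb]
      simp only [Fin.sum_univ_three, fv_self (hA i), fv_swap (hA i) (e 1) (e 0),
        fv_swap (hA i) (e 2) (e 0), fv_swap (hA i) (e 2) (e 1)]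
      have h2 := hn i hi
      simp only [w, dotProduct, Fin.sum_univ_three, Matrix.cons_val] at h2
      obtain ⟨h3, h4, h5⟩ := hpq
      linear_combination c * h2 + (fv (A i) (e 1) (e 2)) * h3 - (fv (A i) (e 0) (e 2)) * h4 +
        (fv (A i) (e 0) (e 1)) * h5
    intro i
    by_cases hi : i = k
    · subst hi
      have h2 : fv (lin A l) (∑ a, p a • e a) (∑ b, q b • e b) = 0 := by
        rw [fv_eq, Matrix.mulVec_sum]
        simp [Matrix.mulVec_smul, hk]
      rw [fv_lin] at h2
      have h3 : ∑ j, l j * fv (A j) (∑ a, p a • e a) (∑ b, q b • e b) =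
          l i * fv (A i) (∑ a, p a • e a) (∑ b, q b • e b) := by
        refine Finset.sum_eq_single i (fun j _ hj => ?_) (fun h => absurd (Finset.mem_univ i) h)
        rw [h1 j hj, mul_zero]
      rw [h3] at h2
      exact (mul_eq_zero.1 h2).resolve_left hlk
    · exact h1 i hi
  · rw [Matrix.mulVec_sum]
    simp [Matrix.mulVec_smul, hk]
  · rw [Matrix.mulVec_sum]
    simp [Matrix.mulVec_smul, hk]

end

open Pool.Agent.KS6_98.V5F in
/-- the Jacobian criterion -/
def Jac (A : Fin 3 → Matrix (Fin 5) (Fin 5) ℚ) : Prop :=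
  ∀ x y : Fin 5 → AlgebraicClosure ℚ, LinearIndependent (AlgebraicClosure ℚ) ![x, y] → IsoA A x y →
    ∀ t : Fin 3 → AlgebraicClosure ℚ, ∃ u v : Fin 5 → AlgebraicClosure ℚ,
      ∀ i, ∑ j, ∑ k, (A i j k : AlgebraicClosure ℚ) * (u j * y k + x j * v k) = t i

theorem smooth_of_jac {A : Fin 3 → Matrix (Fin 5) (Fin 5) ℚ} (hA : ∀ i, Alt (A i)) (h : Jac A) :
    Smooth A := by
  intro l hl
  by_contra hr
  rw [not_le] at hr
  have hE := ex_alt hA
  obtain ⟨x, y, hli, hiso, hx, hy⟩ := exists_iso hE hl hr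
  obtain ⟨k, hk⟩ := Function.ne_iff.1 hl
  rw [Pi.zero_apply] at hk
  have hc : ∀ i j k, ((A i j k : ℚ) : AlgebraicClosure ℚ) = ex A i j k := by
    intro i j k
    simp [ex]
  have hIso : Pool.Agent.KS6_98.V5F.IsoA A x y := by
    intro i
    have := hiso i
    simp only [fv, ← hc] at this
    exact this
  obtain ⟨u, v, huv⟩ := h x y hli hIso (Pi.single k 1)
  have h1 : ∀ i, fv (ex A i) u y + fv (ex A i) x v = (Pi.single k 1 : Fin 3 → AlgebraicClosure ℚ) i := by
    intro i
    rw [← huv i]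
    simp only [fv, hc, ← Finset.sum_add_distrib]
    exact Finset.sum_congr rfl fun a _ => Finset.sum_congr rfl fun b _ => by ring
  have h2 : fv (lin (ex A) l) u y + fv (lin (ex A) l) x v = l k := by
    rw [fv_lin, fv_lin, ← Finset.sum_add_distrib]
    simp only [← mul_add, h1]
    simp [Pi.single_apply]
  rw [fv_swap (lin_alt hE l) x v, fv_eq, fv_eq, hx, hy] at h2
  apply hk
  rw [← h2]
  simp

end Pool.Agent.KS6_30.VF
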