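import Pool.Agent.KS6_30.VF.Plu

/-!
# The kernel of the Pfaffian map of a smooth net
-/

set_option autoImplicit false

namespace Pool.Agent.KS6_30.VF

open Matrix

variable {K : Type*} [Field K] [CharZero K]

theorem rank_le_two {M : Matrix (Fin 5) (Fin 5) K} (h : Alt M) (hP : Pf M = 0) : M.rank ≤ 2 := by
  by_cases h0 : M = 0
  · rw [h0, Matrix.rank_zero]
    norm_num
  · obtain ⟨p, q, hpq⟩ : ∃ p q, M p q ≠ 0 := by
      by_contra hc
      push Not at hc
      exact h0 (by ext i j; exact hc i j)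
    have h1 : M = (Matrix.of fun (i : Fin 5) (k : Fin 2) => ![(M p q)⁻¹ * M p i, -((M p q)⁻¹ * M q i)] k) *
        (Matrix.of fun (k : Fin 2) (j : Fin 5) => ![M q j, M p j] k) := by
      ext i j
      have := pluecker h hP p q i j
      simp only [Matrix.mul_apply, Matrix.of_apply, Fin.sum_univ_two, Matrix.cons_val]
      field_simp
      linear_combination this
    rw [h1]
    exact (Matrix.rank_mul_le_left _ _).trans (Matrix.rank_le_width _)

theorem Pf_ne {M : Matrix (Fin 5) (Fin 5) K} (h : Alt M) (hr : 4 ≤ M.rank) : Pf M ≠ 0 := by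
  intro h0
  have := rank_le_two h h0
  omega

omit [CharZero K] in
theorem ker_line {M : Matrix (Fin 5) (Fin 5) K} (hr : 4 ≤ M.rank) {x y : Fin 5 → K} (hx : x ≠ 0)
    (h1 : M *ᵥ x = 0) (h2 : M *ᵥ y = 0) : ∃ κ : K, y = κ • x := by
  have h3 := LinearMap.finrank_range_add_finrank_ker M.mulVecLin
  rw [Module.finrank_fin_fun] at h3
  have h4 : Module.finrank K (LinearMap.range M.mulVecLin) = M.rank := rfl
  have h5 : Module.finrank K (LinearMap.ker M.mulVecLin) ≤ 1 := by omega
  obtain ⟨v, hv⟩ := finrank_le_one_iff.1 h5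
  obtain ⟨a, ha⟩ := hv ⟨x, by simpa using h1⟩
  obtain ⟨b, hb⟩ := hv ⟨y, by simpa using h2⟩
  have ha' : a • (v : Fin 5 → K) = x := congrArg Subtype.val ha
  have hb' : b • (v : Fin 5 → K) = y := congrArg Subtype.val hb
  have ha0 : a ≠ 0 := by
    rintro rfl
    rw [zero_smul] at ha'
    exact hx ha'.symm
  refine ⟨b / a, ?_⟩
  rw [← ha', ← hb', smul_smul, div_mul_cancel₀ _ ha0]

end Pool.Agent.KS6_30.VF
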