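import Pool.Agent.KS6_98.V5F.Transfer

/-!
# Transfer of the count of the points with a property
-/

set_option autoImplicit false

namespace Pool.Agent.KS6_30.VF

open Pool.Agent.KS6_98.V5F Matrix Filter Topology

local instance factPrimeU (l : Nat.Primes) : Fact (l : ℕ).Prime := ⟨l.2⟩

/-- the asymptotic formula for the points with the property `Q` -/
def MANQ (A : Fin 3 → Matrix (Fin 5) (Fin 5) ℚ) (Q : PP → Prop) : Prop :=
  ∀ (S : Finset Nat.Primes) (ψ : (Fin 5 × Fin 5 → ℝ) → ℝ)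
    (φ : ∀ l : Nat.Primes, (Fin 5 × Fin 5 → ℚ_[l]) → ℝ), IsFactor A ℝ ψ →
    (∀ l ∈ S, IsFactor A ℚ_[l] (φ l)) →
    ∃ c : ℝ, 0 < c ∧ Filter.Tendsto (fun B : ℝ =>
      (({p : PP | (IsPoint A p ∧ Q p) ∧ height S ψ φ p ≤ B}).ncard : ℝ) / B) Filter.atTop (nhds c)

variable {A A' : Fin 3 → Matrix (Fin 5) (Fin 5) ℚ} {g : Matrix (Fin 5) (Fin 5) ℚ}
  {h : Matrix (Fin 3) (Fin 3) ℚ}

theorem transfer_Q (hg : IsUnit g.det) (hh : IsUnit h.det)
    (hA : ∀ i, A' i = ∑ j, h i j • (gᵀ * A j * g)) {Q Q' : PP → Prop}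
    (hQ : ∀ p, Q (mp hg p) ↔ Q' p) (hM : MANQ A' Q') : MANQ A Q := by
  classical
  intro S ψ φ hψ hφ
  obtain ⟨T0, hT0⟩ := exists_bad hg
  set T := S ∪ T0 with hTd
  have hT : ∀ l : Nat.Primes, l ∉ T → ∀ q : Fin 5 × Fin 5 → ℚ_[l], ‖kr (lm ℚ_[l] g) q‖ = ‖q‖ :=
    fun l hl => hT0 l fun h0 => hl (Finset.mem_union_right _ h0)
  have hST : S ⊆ T := Finset.subset_union_left
  obtain ⟨c, hc, hlim⟩ := hM T (fun q => ψ (kr (lm ℝ g) q) * rat (lm ℝ g) q) (phi g S φ)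
    (factor_transfer hg hh hA hψ) (fun l _ => by
      by_cases hl : l ∈ S
      · have h1 := factor_transfer hg hh hA (hφ l hl)
        have h2 : phi g S φ l = fun q => φ l (kr (lm ℚ_[l] g) q) * rat (lm ℚ_[l] g) q := by
          funext q
          rw [phi, if_pos hl]
        rw [h2]
        exact h1
      · have h2 : phi g S φ l = fun q => rat (lm ℚ_[l] g) q := by
          funext q
          rw [phi, if_neg hl, one_mul]
        rw [h2]
        exact one_transfer hg)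
  refine ⟨c, hc, ?_⟩
  have hb : ∀ B : ℝ, {p : PP | (IsPoint A p ∧ Q p) ∧ height S ψ φ p ≤ B} = mp hg ''
      {p : PP | (IsPoint A' p ∧ Q' p) ∧
        height T (fun q => ψ (kr (lm ℝ g) q) * rat (lm ℝ g) q) (phi g S φ) p ≤ B} := by
    intro B
    ext p
    constructor
    · rintro ⟨⟨h1, hq⟩, h2⟩
      obtain ⟨p', rfl⟩ := mp_surjective hg p
      have h3 := (isPoint_mp hg hh hA p').1 h1
      refine ⟨p', ⟨⟨h3, (hQ p').1 hq⟩, ?_⟩, rfl⟩
      rw [← height_mp hg hh hA hT hST hψ hφ h3]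
      exact h2
    · rintro ⟨p', ⟨⟨h1, hq⟩, h2⟩, rfl⟩
      refine ⟨⟨(isPoint_mp hg hh hA p').2 h1, (hQ p').2 hq⟩, ?_⟩
      rw [height_mp hg hh hA hT hST hψ hφ h1]
      exact h2
  refine hlim.congr fun B => ?_
  rw [hb B, Set.ncard_image_of_injective _ (mp_injective hg)]

/-- the point is on a line of `X_A` defined over `ℚ` -/
def OnLine (A : Fin 3 → Matrix (Fin 5) (Fin 5) ℚ) (p : PP) : Prop :=
  ∃ a b c : Fin 5 → ℚ, LinearIndependent ℚ ![a, b, c] ∧ IsoA A a b ∧ IsoA A a c ∧ p.rep = wedge a b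

theorem lm_rat {m n : Type} (g : Matrix m n ℚ) : lm ℚ g = g := by
  ext i j
  simp [lm]

theorem indep_mul {g : Matrix (Fin 5) (Fin 5) ℚ} (hg : IsUnit g.det) {a b c : Fin 5 → ℚ}
    (h : LinearIndependent ℚ ![a, b, c]) : LinearIndependent ℚ ![g *ᵥ a, g *ᵥ b, g *ᵥ c] := by
  have hk : LinearMap.ker g.mulVecLin = ⊥ := by
    rw [LinearMap.ker_eq_bot']
    intro v hv
    have h1 : g *ᵥ v = 0 := hv
    have h2 : g⁻¹ *ᵥ (g *ᵥ v) = 0 := by rw [h1, Matrix.mulVec_zero]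
    rwa [Matrix.mulVec_mulVec, Matrix.nonsing_inv_mul _ hg, Matrix.one_mulVec] at h2
  have h3 := h.map' g.mulVecLin hk
  have h4 : (g.mulVecLin ∘ ![a, b, c]) = ![g *ᵥ a, g *ᵥ b, g *ᵥ c] := by
    funext i
    fin_cases i <;> rfl
  rwa [h4] at h3

theorem onLine_mp (hg : IsUnit g.det) (hh : IsUnit h.det)
    (hA : ∀ i, A' i = ∑ j, h i j • (gᵀ * A j * g)) (p : PP) :
    OnLine A (mp hg p) ↔ OnLine A' p := by
  obtain ⟨u, hu, he⟩ := mp_rep hg p
  constructor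
  · rintro ⟨a, b, c, hli, hab, hac, hp⟩
    have hgi : IsUnit (g⁻¹).det := Matrix.isUnit_nonsing_inv_det g hg
    have e : ∀ v : Fin 5 → ℚ, (lm ℚ g) *ᵥ (g⁻¹ *ᵥ v) = v := by
      intro v
      rw [lm_rat, Matrix.mulVec_mulVec, Matrix.mul_nonsing_inv _ hg, Matrix.one_mulVec]
    have hT : ∀ x y : Fin 5 → ℚ, IsoA A x y → IsoA A' (g⁻¹ *ᵥ x) (g⁻¹ *ᵥ y) := by
      intro x y hxy
      rw [isoA_transfer hh hA, e, e]
      exact hxy
    have h1 : p.rep = u⁻¹ • wedge (g⁻¹ *ᵥ a) (g⁻¹ *ᵥ b) := by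
      have h2 : kr (lm ℚ g) p.rep = u⁻¹ • wedge a b := by
        rw [← hp, he, smul_smul, inv_mul_cancel₀ hu, one_smul]
      have h3 := kr_inv_left (L := ℚ) hg p.rep
      rw [h2, kr_smul, kr_wedge, lm_rat] at h3
      exact h3.symm
    refine ⟨u⁻¹ • (g⁻¹ *ᵥ a), g⁻¹ *ᵥ b, g⁻¹ *ᵥ c, ?_, isoA_smul _ (hT _ _ hab),
      isoA_smul _ (hT _ _ hac), ?_⟩
    · have h5 := indep_mul hgi hli
      rw [Fintype.linearIndependent_iff] at h5 ⊢
      intro w hw
      have h6 := h5 ![w 0 * u⁻¹, w 1, w 2] (by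
        rw [Fin.sum_univ_three] at hw ⊢
        rw [← hw]
        simp [smul_smul])
      intro i
      fin_cases i
      · have := h6 0
        simp only [Matrix.cons_val] at this
        exact (mul_eq_zero.1 this).resolve_right (inv_ne_zero hu)
      · exact h6 1
      · exact h6 2
    · rw [h1, wedge_smul]
  · rintro ⟨a, b, c, hli, hab, hac, hp⟩
    have hT : ∀ x y : Fin 5 → ℚ, IsoA A' x y → IsoA A (g *ᵥ x) (g *ᵥ y) := by
      intro x y hxy
      have := (isoA_transfer hh hA x y).1 hxy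
      rwa [lm_rat] at this
    refine ⟨u • (g *ᵥ a), g *ᵥ b, g *ᵥ c, ?_, isoA_smul _ (hT _ _ hab), isoA_smul _ (hT _ _ hac), ?_⟩
    · have h5 := indep_mul hg hli
      rw [Fintype.linearIndependent_iff] at h5 ⊢
      intro w hw
      have h6 := h5 ![w 0 * u, w 1, w 2] (by
        rw [Fin.sum_univ_three] at hw ⊢
        rw [← hw]
        simp [smul_smul])
      intro i
      fin_cases i
      · have := h6 0
        simp only [Matrix.cons_val] at this
        exact (mul_eq_zero.1 this).resolve_right hu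
      · exact h6 1
      · exact h6 2
    · rw [he, hp, kr_wedge, lm_rat, wedge_smul]

end Pool.Agent.KS6_30.VF
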