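import Pool.Agent.KS6_30.VF.Forms
import Pool.Agent.KS6_30.VF.TransU
import Pool.Agent.KS6_30.VB.L9

/-!
# The points on no rational line
-/

set_option autoImplicit false
set_option linter.unusedSectionVars false

namespace Pool.Agent.KS6_30.VF

open Pool.Agent.KS6_98.V5F Filter Topology Matrix
open Pool.Agent.KS6_30.VA.Tern

section

variable [VA.Tern]

theorem manU_tern : MANQ (BB fa fb fc) (fun p => ¬ OnLine (BB fa fb fc) p) := by
  intro S ψ φ hψ hφ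
  obtain ⟨c, hc, h⟩ := VB.main_U S ψ φ (fac_BB hψ) (fun p hp => fac_BB (hφ p hp))
  refine ⟨c, hc, ?_⟩
  have e0 : ∀ p : PP, OnLine (BB fa fb fc) p ↔ VB.OnL p := by
    intro p
    constructor
    · rintro ⟨a, b, c, h1, h2, h3, h4⟩
      exact ⟨a, b, c, h1, (isoA_BB _ _).1 h2, (isoA_BB _ _).1 h3, h4⟩
    · rintro ⟨a, b, c, h1, h2, h3, h4⟩
      exact ⟨a, b, c, h1, (isoA_BB _ _).2 h2, (isoA_BB _ _).2 h3, h4⟩
  have e : ∀ B : ℝ, {p : PP | (IsPoint (BB fa fb fc) p ∧ ¬ OnLine (BB fa fb fc) p) ∧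
      height S ψ φ p ≤ B} = VB.bddU S ψ φ B := by
    intro B
    ext p
    constructor
    · rintro ⟨⟨⟨x, y, hi, he⟩, h1⟩, h2⟩
      exact ⟨⟨⟨x, y, (isoA_BB x y).1 hi, he⟩, fun hc => h1 ((e0 p).2 hc)⟩, h2⟩
    · rintro ⟨⟨⟨x, y, hi, he⟩, h1⟩, h2⟩
      exact ⟨⟨⟨x, y, (isoA_BB x y).2 hi, he⟩, fun hc => h1 ((e0 p).1 hc)⟩, h2⟩
  simp only [e]
  exact h

end

theorem manU_BB {a b c : ℤ} (ha : a ≠ 0) (hb : b ≠ 0) (hc : c ≠ 0) (hab : IsCoprime a b)
    (hbc : IsCoprime b c) (hca : IsCoprime c a) :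
    MANQ (BB a b c) (fun p => ¬ OnLine (BB a b c) p) :=
  @manU_tern { fa := a, fb := b, fc := c, ha := ha, hb := hb, hc := hc, ab := hab, bc := hbc, ca := hca }

/-- the points on no rational line, for all smooth sections -/
theorem manU_all {A : Fin 3 → Matrix (Fin 5) (Fin 5) ℚ} (hA : ∀ i, (A i)ᵀ = -(A i)) (h : Jac A) :
    MANQ A (fun p => ¬ OnLine A p) := by
  obtain ⟨g, h, a, b, c, hg, hh, ha, hb, hc, hab, hbc, hca, he⟩ :=
    classify' (fun T hT hd => Pool.Agent.KS6_53.V5F.legendre T hT hd) net_unique hA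
      (smooth_of_jac hA h)
  exact transfer_Q hg hh he (fun p => not_congr (onLine_mp hg hh he p))
    (manU_BB ha hb hc hab hbc hca)

end Pool.Agent.KS6_30.VF
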