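import Pool.Agent.KS6_30.VF.Ker

/-!
# The relation of a smooth net
-/

set_option autoImplicit false

namespace Pool.Agent.KS6_30.VF

open Matrix

section

variable {K : Type*} [Field K]

/-- the members of the net -/
def lin (A : Fin 3 → Matrix (Fin 5) (Fin 5) K) (l : Fin 3 → K) : Matrix (Fin 5) (Fin 5) K :=
  ∑ i, l i • A i

/-- the linear map from the symmetric tensors -/
def Phi (A : Fin 3 → Matrix (Fin 5) (Fin 5) K) (T : Matrix (Fin 3) (Fin 3) K) : Fin 5 → K :=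
  ∑ i, ∑ j, T i j • Pq (A i) (A j)

theorem lin_alt {A : Fin 3 → Matrix (Fin 5) (Fin 5) K} (hA : ∀ i, Alt (A i)) (l : Fin 3 → K) :
    Alt (lin A l) := by
  have h0 := hA 0
  have h1 := hA 1
  have h2 := hA 2
  simp only [Alt] at h0 h1 h2 ⊢
  simp only [lin, Fin.sum_univ_three, Matrix.transpose_add, Matrix.transpose_smul, h0, h1, h2, neg_add,
    smul_neg]

theorem lin_comb (A : Fin 3 → Matrix (Fin 5) (Fin 5) K) (s t : K) (l m : Fin 3 → K) :
    lin A (s • l + t • m) = s • lin A l + t • lin A m := by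
  simp only [lin, Fin.sum_univ_three, Pi.add_apply, Pi.smul_apply, smul_eq_mul, add_smul, smul_add,
    smul_smul]
  abel

theorem Phi_add (A : Fin 3 → Matrix (Fin 5) (Fin 5) K) (T T' : Matrix (Fin 3) (Fin 3) K) :
    Phi A (T + T') = Phi A T + Phi A T' := by
  simp only [Phi, Matrix.add_apply, add_smul, Finset.sum_add_distrib]

theorem Phi_smul (A : Fin 3 → Matrix (Fin 5) (Fin 5) K) (s : K) (T : Matrix (Fin 3) (Fin 3) K) :
    Phi A (s • T) = s • Phi A T := by
  simp only [Phi, Matrix.smul_apply, smul_assoc, Finset.smul_sum]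

theorem Pq_lin (A : Fin 3 → Matrix (Fin 5) (Fin 5) K) (l m : Fin 3 → K) :
    Pq (lin A l) (lin A m) = Phi A (vecMulVec l m) := by
  simp only [lin, Phi, Fin.sum_univ_three, Pq_add, Pq_add_left, Pq_smul, Pq_smul_left,
    vecMulVec_apply, smul_smul]
  funext i
  simp only [Pi.add_apply, Pi.smul_apply, smul_eq_mul]
  ring

theorem diag_sum (h : Matrix (Fin 3) (Fin 3) K) (d : Fin 3 → K) :
    hᵀ * diagonal d * h = d 0 • vecMulVec (h 0) (h 0) + d 1 • vecMulVec (h 1) (h 1) +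
      d 2 • vecMulVec (h 2) (h 2) := by
  ext i j
  simp only [Matrix.mul_apply, Matrix.transpose_apply, diagonal, Matrix.of_apply,
    Fin.sum_univ_three, Matrix.add_apply, Matrix.smul_apply, vecMulVec_apply, smul_eq_mul]
  simp
  ring

theorem rows_indep {h : Matrix (Fin 3) (Fin 3) K} (hu : IsUnit h.det) (w : Fin 3 → K)
    (h0 : w 0 • h 0 + w 1 • h 1 + w 2 • h 2 = 0) : w = 0 := by
  have h1 : w ᵥ* h = 0 := by
    funext j
    have := congrFun h0 j
    simpa [Matrix.vecMul, dotProduct, Fin.sum_univ_three] using this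
  have h2 : w ᵥ* (h * h⁻¹) = 0 := by
    rw [← Matrix.vecMul_vecMul, h1, Matrix.zero_vecMul]
  rwa [Matrix.mul_nonsing_inv h hu, Matrix.vecMul_one] at h2

end

section closed

variable {K : Type*} [Field K] [CharZero K] [IsAlgClosed K] {A : Fin 3 → Matrix (Fin 5) (Fin 5) K}

theorem no_pair (hA : ∀ i, Alt (A i)) (hs : ∀ l : Fin 3 → K, l ≠ 0 → 4 ≤ (lin A l).rank)
    {l m : Fin 3 → K} (hl : l ≠ 0) (hm : m ≠ 0) : Pq (lin A l) (lin A m) ≠ 0 := by
  intro h0
  set M := lin A l with hM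
  set N := lin A m with hN
  have aM : Alt M := lin_alt hA l
  have aN : Alt N := lin_alt hA m
  have h1 := mul_Pq aM aN
  rw [h0, Matrix.mulVec_zero, zero_add] at h1
  have h2 := mul_Pf aN
  have h3 : Pf N ≠ 0 := Pf_ne aN (hs m hm)
  have h4 : Pf M ≠ 0 := Pf_ne aM (hs l hl)
  obtain ⟨κ, hκ⟩ := ker_line (hs m hm) h3 h2 h1
  have hκ0 : κ ≠ 0 := by
    rintro rfl
    rw [zero_smul] at hκ
    exact h4 hκ
  obtain ⟨t, ht⟩ := IsAlgClosed.exists_pow_nat_eq (-κ) (n := 2) two_pos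
  have ht0 : t ≠ 0 := by
    rintro rfl
    apply hκ0
    have : -κ = 0 := by rw [← ht]; ring
    exact neg_eq_zero.1 this
  have h5 : Pf ((1 : K) • M + t • N) = 0 := by
    rw [Pf_comb, h0, hκ, ht, smul_zero, add_zero, one_pow, one_smul, ← add_smul, add_neg_cancel,
      zero_smul]
  have h6 : (1 : K) • l + t • m = 0 := by
    by_contra hc
    have h7 := hs _ hc
    rw [lin_comb] at h7
    refine Pf_ne ?_ h7 h5
    have := lin_alt hA ((1 : K) • l + t • m)
    rwa [lin_comb] at this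
  have h8 : M = (-t) • N := by
    have h9 := lin_comb A 1 t l m
    rw [h6] at h9
    have h10 : lin A 0 = 0 := by simp [lin]
    rw [h10, one_smul] at h9
    rw [neg_smul]
    exact eq_neg_of_add_eq_zero_left h9.symm
  rw [h8, Pq_smul_left, Pq_self, smul_smul] at h0
  rcases smul_eq_zero.1 h0 with h | h
  · rcases mul_eq_zero.1 h with h | h
    · exact ht0 (neg_eq_zero.1 h)
    · exact two_ne_zero h
  · exact h3 h

theorem two_sum (hA : ∀ i, Alt (A i)) (hs : ∀ l : Fin 3 → K, l ≠ 0 → 4 ≤ (lin A l).rank)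
    {u v : Fin 3 → K} {c e : K} (hli : ∀ α β : K, α • u + β • v = 0 → α = 0 ∧ β = 0)
    (h : c • Pq (lin A u) (lin A u) + e • Pq (lin A v) (lin A v) = 0) : c = 0 ∧ e = 0 := by
  obtain ⟨α, hα⟩ := IsAlgClosed.exists_pow_nat_eq c (n := 2) two_pos
  obtain ⟨β, hβ⟩ := IsAlgClosed.exists_pow_nat_eq (-e) (n := 2) two_pos
  have h1 : Pq (lin A (α • u + β • v)) (lin A (α • u + (-β) • v)) = 0 := by
    rw [lin_comb, lin_comb, Pq_add, Pq_add_left, Pq_add_left]
    simp only [Pq_smul, Pq_smul_left, smul_smul]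
    rw [Pq_comm (lin A v) (lin A u)]
    funext i
    have h2 := congrFun h i
    simp only [Pi.add_apply, Pi.smul_apply, smul_eq_mul, Pi.zero_apply] at h2 ⊢
    linear_combination h2 + (Pq (lin A u) (lin A u) i) * hα - (Pq (lin A v) (lin A v) i) * hβ
  have key : α = 0 ∧ β = 0 := by
    by_cases h2 : α • u + β • v = 0
    · exact hli _ _ h2
    · by_cases h3 : α • u + (-β) • v = 0
      · obtain ⟨h4, h5⟩ := hli _ _ h3
        exact ⟨h4, neg_eq_zero.1 h5⟩
      · exact absurd h1 (no_pair hA hs h2 h3)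
  obtain ⟨k1, k2⟩ := key
  constructor
  · rw [← hα, k1]
    ring
  · have : -e = 0 := by rw [← hβ, k2]; ring
    exact neg_eq_zero.1 this

theorem nondeg (hA : ∀ i, Alt (A i)) (hs : ∀ l : Fin 3 → K, l ≠ 0 → 4 ≤ (lin A l).rank)
    {T : Matrix (Fin 3) (Fin 3) K} (hT : Tᵀ = T) (hΦ : Phi A T = 0) (hd : T.det = 0) : T = 0 := by
  obtain ⟨h, d, hu, he⟩ := exists_diag T hT
  have hd3 : d 0 * d 1 * d 2 = 0 := by
    rw [he, Matrix.det_mul, Matrix.det_mul, Matrix.det_transpose, Matrix.det_diagonal,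
      Fin.prod_univ_three] at hd
    have hu0 := hu.ne_zero
    have h1 : h.det ^ 2 * (d 0 * d 1 * d 2) = 0 := by linear_combination hd
    exact (mul_eq_zero.1 h1).resolve_left (pow_ne_zero 2 hu0)
  have hsum := diag_sum h d
  rw [← he] at hsum
  have hΦ2 : d 0 • Pq (lin A (h 0)) (lin A (h 0)) + d 1 • Pq (lin A (h 1)) (lin A (h 1)) +
      d 2 • Pq (lin A (h 2)) (lin A (h 2)) = 0 := by
    rw [← hΦ, hsum, Phi_add, Phi_add, Phi_smul, Phi_smul, Phi_smul, Pq_lin, Pq_lin, Pq_lin]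
  have hall : d 0 = 0 ∧ d 1 = 0 ∧ d 2 = 0 := by
    rcases mul_eq_zero.1 hd3 with h01 | h2
    · rcases mul_eq_zero.1 h01 with h0 | h1
      · rw [h0, zero_smul, zero_add] at hΦ2
        obtain ⟨a, b⟩ := two_sum hA hs (fun α β hαβ => by
          have := rows_indep hu ![0, α, β] (by simpa using hαβ)
          exact ⟨by simpa using congrFun this 1, by simpa using congrFun this 2⟩) hΦ2
        exact ⟨h0, a, b⟩
      · rw [h1, zero_smul, add_zero] at hΦ2
        obtain ⟨a, b⟩ := two_sum hA hs (fun α β hαβ => by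
          have := rows_indep hu ![α, 0, β] (by simpa using hαβ)
          exact ⟨by simpa using congrFun this 0, by simpa using congrFun this 2⟩) hΦ2
        exact ⟨a, h1, b⟩
    · rw [h2, zero_smul, add_zero] at hΦ2
      obtain ⟨a, b⟩ := two_sum hA hs (fun α β hαβ => by
        have := rows_indep hu ![α, β, 0] (by simpa using hαβ)
        exact ⟨by simpa using congrFun this 0, by simpa using congrFun this 1⟩) hΦ2
      exact ⟨a, b, h2⟩
  rw [hsum, hall.1, hall.2.1, hall.2.2, zero_smul, zero_smul, zero_smul, add_zero, add_zero]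

theorem unique (hA : ∀ i, Alt (A i)) (hs : ∀ l : Fin 3 → K, l ≠ 0 → 4 ≤ (lin A l).rank)
    {T T' : Matrix (Fin 3) (Fin 3) K} (hT : Tᵀ = T) (hΦ : Phi A T = 0) (hT' : T'ᵀ = T')
    (hΦ' : Phi A T' = 0) (h0 : T ≠ 0) : ∃ s : K, T' = s • T := by
  have hd : T.det ≠ 0 := fun h => h0 (nondeg hA hs hT hΦ h)
  obtain ⟨μ, hμ⟩ := Module.End.exists_eigenvalue (T⁻¹ * T').mulVecLin
  obtain ⟨v, hv⟩ := hμ.exists_hasEigenvector
  have hv1 : (T⁻¹ * T') *ᵥ v = μ • v := hv.apply_eq_smul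
  have hv0 : v ≠ 0 := hv.2
  have h1 : T' *ᵥ v = μ • (T *ᵥ v) := by
    have h2 : T *ᵥ ((T⁻¹ * T') *ᵥ v) = T *ᵥ (μ • v) := by rw [hv1]
    rw [Matrix.mulVec_mulVec, ← Matrix.mul_assoc, Matrix.mul_nonsing_inv T (isUnit_iff_ne_zero.2 hd),
      Matrix.one_mul, Matrix.mulVec_smul] at h2
    exact h2
  have h2 : (T' - μ • T).det = 0 := by
    rw [← Matrix.exists_mulVec_eq_zero_iff]
    refine ⟨v, hv0, ?_⟩
    rw [Matrix.sub_mulVec, Matrix.smul_mulVec, h1, sub_self]
  have h3 : T' - μ • T = 0 := by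
    refine nondeg hA hs ?_ ?_ h2
    · rw [Matrix.transpose_sub, Matrix.transpose_smul, hT, hT']
    · have : T' - μ • T = T' + (-μ) • T := by rw [neg_smul, sub_eq_add_neg]
      rw [this, Phi_add, Phi_smul, hΦ, hΦ', smul_zero, add_zero]
  exact ⟨μ, sub_eq_zero.1 h3⟩

end closed

end Pool.Agent.KS6_30.VF
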