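import Pool.Agent.KS6_30.VF.Diag

/-!
# Pfaffians of alternating 5 x 5 matrices
-/

set_option autoImplicit false

namespace Pool.Agent.KS6_30.VF

open Matrix

section

variable {K : Type*} [Field K]

/-- the signed sub-Pfaffians -/
def Pf (M : Matrix (Fin 5) (Fin 5) K) : Fin 5 → K :=
  ![M 1 2 * M 3 4 - M 1 3 * M 2 4 + M 1 4 * M 2 3,
    -(M 0 2 * M 3 4 - M 0 3 * M 2 4 + M 0 4 * M 2 3),
    M 0 1 * M 3 4 - M 0 3 * M 1 4 + M 0 4 * M 1 3,
    -(M 0 1 * M 2 4 - M 0 2 * M 1 4 + M 0 4 * M 1 2),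
    M 0 1 * M 2 3 - M 0 2 * M 1 3 + M 0 3 * M 1 2]

/-- the polarization -/
def Pq (M N : Matrix (Fin 5) (Fin 5) K) : Fin 5 → K :=
  ![M 1 2 * N 3 4 - M 1 3 * N 2 4 + M 1 4 * N 2 3 + (N 1 2 * M 3 4 - N 1 3 * M 2 4 + N 1 4 * M 2 3),
    -(M 0 2 * N 3 4 - M 0 3 * N 2 4 + M 0 4 * N 2 3 + (N 0 2 * M 3 4 - N 0 3 * M 2 4 + N 0 4 * M 2 3)),
    M 0 1 * N 3 4 - M 0 3 * N 1 4 + M 0 4 * N 1 3 + (N 0 1 * M 3 4 - N 0 3 * M 1 4 + N 0 4 * M 1 3),
    -(M 0 1 * N 2 4 - M 0 2 * N 1 4 + M 0 4 * N 1 2 + (N 0 1 * M 2 4 - N 0 2 * M 1 4 + N 0 4 * M 1 2)),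
    M 0 1 * N 2 3 - M 0 2 * N 1 3 + M 0 3 * N 1 2 + (N 0 1 * M 2 3 - N 0 2 * M 1 3 + N 0 3 * M 1 2)]

theorem Pf_comb (s t : K) (M N : Matrix (Fin 5) (Fin 5) K) :
    Pf (s • M + t • N) = s ^ 2 • Pf M + (s * t) • Pq M N + t ^ 2 • Pf N := by
  funext i
  fin_cases i <;> simp [Pf, Pq] <;> ring

theorem Pq_self (M : Matrix (Fin 5) (Fin 5) K) : Pq M M = (2 : K) • Pf M := by
  funext i
  fin_cases i <;> simp [Pf, Pq] <;> ring

theorem Pq_comm (M N : Matrix (Fin 5) (Fin 5) K) : Pq M N = Pq N M := by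
  funext i
  fin_cases i <;> simp [Pq] <;> ring

theorem Pq_add (M N N' : Matrix (Fin 5) (Fin 5) K) : Pq M (N + N') = Pq M N + Pq M N' := by
  funext i
  fin_cases i <;> simp [Pq] <;> ring

theorem Pq_smul (t : K) (M N : Matrix (Fin 5) (Fin 5) K) : Pq M (t • N) = t • Pq M N := by
  funext i
  fin_cases i <;> simp [Pq] <;> ring

theorem Pq_smul_left (t : K) (M N : Matrix (Fin 5) (Fin 5) K) : Pq (t • M) N = t • Pq M N := by
  rw [Pq_comm, Pq_smul, Pq_comm]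

theorem Pq_add_left (M M' N : Matrix (Fin 5) (Fin 5) K) : Pq (M + M') N = Pq M N + Pq M' N := by
  rw [Pq_comm, Pq_add, Pq_comm, Pq_comm N M']

variable [CharZero K]

/-- alternating matrices -/
def Alt (M : Matrix (Fin 5) (Fin 5) K) : Prop := Mᵀ = -M

theorem Alt.diag {M : Matrix (Fin 5) (Fin 5) K} (h : Alt M) (i : Fin 5) : M i i = 0 := by
  have h1 := congrFun (congrFun h i) i
  simp only [Matrix.transpose_apply, Matrix.neg_apply] at h1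
  have h2 : (2 : K) * M i i = 0 := by linear_combination h1
  exact (mul_eq_zero.1 h2).resolve_left two_ne_zero

omit [CharZero K] in
theorem Alt.anti {M : Matrix (Fin 5) (Fin 5) K} (h : Alt M) (i j : Fin 5) : M j i = -M i j := by
  have h1 := congrFun (congrFun h i) j
  simpa using h1

/-- the kernel of an alternating matrix -/
theorem mul_Pf {M : Matrix (Fin 5) (Fin 5) K} (h : Alt M) : M *ᵥ Pf M = 0 := by
  have d := h.diag
  have a := h.anti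
  funext i
  fin_cases i <;> simp [Pf, Matrix.mulVec, dotProduct, Fin.sum_univ_five, d, a 0 1, a 0 2, a 0 3, a 0 4,
    a 1 2, a 1 3, a 1 4, a 2 3, a 2 4, a 3 4] <;> ring

theorem mul_Pq {M N : Matrix (Fin 5) (Fin 5) K} (h : Alt M) (h' : Alt N) :
    M *ᵥ Pq M N + N *ᵥ Pf M = 0 := by
  have d := h.diag
  have a := h.anti
  have d' := h'.diag
  have a' := h'.anti
  funext i
  fin_cases i <;> simp [Pf, Pq, Matrix.mulVec, dotProduct, Fin.sum_univ_five, d, a 0 1, a 0 2, a 0 3,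
    a 0 4, a 1 2, a 1 3, a 1 4, a 2 3, a 2 4, a 3 4, d', a' 0 1, a' 0 2, a' 0 3, a' 0 4,
    a' 1 2, a' 1 3, a' 1 4, a' 2 3, a' 2 4, a' 3 4] <;> ring

end

end Pool.Agent.KS6_30.VF
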