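import Pool.Agent.KS6_30.VF.Pfa

/-!
# The Pluecker relations
-/

set_option autoImplicit false

namespace Pool.Agent.KS6_30.VF

open Matrix

variable {K : Type*} [Field K] [CharZero K]

theorem pluecker {M : Matrix (Fin 5) (Fin 5) K} (h : Alt M) (hP : Pf M = 0) (p q i j : Fin 5) :
    M p q * M i j - M p i * M q j + M p j * M q i = 0 := by
  have d := h.diag
  have a := h.anti
  have h0 := congrFun hP 0
  have h1 := congrFun hP 1
  have h2 := congrFun hP 2
  have h3 := congrFun hP 3
  have h4 := congrFun hP 4
  simp only [Pf, Pi.zero_apply, Matrix.cons_val] at h0 h1 h2 h3 h4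
  have hz : ∀ u : K, u = 0 → u = 0 := fun _ h => h
  fin_cases p <;> fin_cases q <;> fin_cases i <;> fin_cases j <;>
    simp only [Fin.zero_eta, Fin.mk_one, Fin.reduceFinMk, d, a 0 1, a 0 2, a 0 3, a 0 4, a 1 2, a 1 3,
      a 1 4, a 2 3, a 2 4, a 3 4] <;>
    first
    | ring1
    | linear_combination h0
    | linear_combination -h0
    | linear_combination h1
    | linear_combination -h1
    | linear_combination h2
    | linear_combination -h2
    | linear_combination h3
    | linear_combination -h3
    | linear_combination h4
    | linear_combination -h4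

end Pool.Agent.KS6_30.VF
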